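import Pool.Agent.Q294.BRW.Ladder

/-!
# A branching random walk with infinitely many extinction vectors and infinitely many other fixed points
-/

namespace Pool.Agent.Results.MP_46e535_pr.BothInfinite

open Q294.Branch

/-- There is an irreducible, non-singular branching random walk on a countably infinite set with
(countably) infinitely many extinction probability vectors, whose generating function has
infinitely many, in fact as many as there are real numbers, further fixed points. -/
theorem result : ∃ b : BRW (ℕ × ℕ), b.Irreducible ∧ b.NonSingular ∧ b.EG.Infinite ∧
    b.EG.Countable ∧ Cardinal.mk ↥(b.FG \ b.EG) = Cardinal.continuum :=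
  ⟨Ladder.ladder, Ladder.irreducible, Ladder.nonSingular, Ladder.EG_infinite, Ladder.EG_countable,
    Ladder.mk_diff⟩

end Pool.Agent.Results.MP_46e535_pr.BothInfinite
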